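import Mathlib
import Pool.Agent.Helper25.E963Lvl

set_option autoImplicit false

/-!
The certificate: elements whose three dilates lie in suitable arcs at doubling scales are
dissociated.
-/

namespace H346R3.E963

open Finset

lemma prod_abs_le (e : ℤ) (he : |e| ≤ 1) (v : ℕ) : |e * (v : ℤ)| ≤ v := by
  rw [abs_mul, Nat.abs_cast]
  exact mul_le_of_le_one_left (by positivity) he

lemma top_zero (x : ℤ) (e : Fin 3 → ℤ) (he : ∀ i, |e i| ≤ 1) (v : Fin 3 → ℕ) (i : Fin 3)
    (B T A : ℤ) (hoff : ∀ k, k ≠ i → (v k : ℤ) < B) (hx : |x| ≤ T) (hA : A ≤ v i)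
    (hTA : T + 2 * B ≤ A) (h : x + ∑ k, e k * (v k : ℤ) = 0) : e i = 0 := by
  have h0 := abs_le.1 (prod_abs_le (e 0) (he 0) (v 0))
  have h1 := abs_le.1 (prod_abs_le (e 1) (he 1) (v 1))
  have h2 := abs_le.1 (prod_abs_le (e 2) (he 2) (v 2))
  have hx' := abs_le.1 hx
  rw [Fin.sum_univ_three] at h
  rcases (by fin_cases i <;> simp : i = 0 ∨ i = 1 ∨ i = 2) with rfl | rfl | rfl
  · have a1 := hoff 1 (by decide)
    have a2 := hoff 2 (by decide)
    rcases Int.abs_le_one_iff.1 (he 0) with h' | h' | h'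
    · exact h'
    · exfalso; rw [h'] at h; linarith [h1.1, h1.2, h2.1, h2.2, hx'.1, hx'.2]
    · exfalso; rw [h'] at h; linarith [h1.1, h1.2, h2.1, h2.2, hx'.1, hx'.2]
  · have a1 := hoff 0 (by decide)
    have a2 := hoff 2 (by decide)
    rcases Int.abs_le_one_iff.1 (he 1) with h' | h' | h'
    · exact h'
    · exfalso; rw [h'] at h; linarith [h0.1, h0.2, h2.1, h2.2, hx'.1, hx'.2]
    · exfalso; rw [h'] at h; linarith [h0.1, h0.2, h2.1, h2.2, hx'.1, hx'.2]
  · have a1 := hoff 0 (by decide)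
    have a2 := hoff 1 (by decide)
    rcases Int.abs_le_one_iff.1 (he 2) with h' | h' | h'
    · exact h'
    · exfalso; rw [h'] at h; linarith [h0.1, h0.2, h1.1, h1.2, hx'.1, hx'.2]
    · exfalso; rw [h'] at h; linarith [h0.1, h0.2, h1.1, h1.2, hx'.1, hx'.2]

/-- the hypotheses on the residues -/
structure Good (L J : ℕ) (W T : ℕ → ℕ) (v : ℕ → Fin 3 → Fin 3 → ℕ) : Prop where
  hT0 : T 0 = 0
  hT : ∀ j, T (j + 1) = 2 * T j + 6 * W j
  hlo : ∀ j < J, ∀ i, L * (T j + 3 * W j) ≤ v j i i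
  hhi : ∀ j < J, ∀ i, v j i i < L * (T j + 3 * W j + W j)
  hoff : ∀ j < J, ∀ i i', i ≠ i' → v j i i' < L * W j

lemma total_bound {L J : ℕ} {W T : ℕ → ℕ} {v : ℕ → Fin 3 → Fin 3 → ℕ} (hg : Good L J W T v)
    (e : ℕ → Fin 3 → ℤ) (i' : Fin 3) : ∀ n, n ≤ J → (∀ j < n, ∀ i, |e j i| ≤ 1) →
    |∑ j ∈ range n, ∑ i, e j i * (v j i i' : ℤ)| ≤ (L * T n : ℤ) := by
  intro n
  induction n with
  | zero => intro _ _; simp [hg.hT0]
  | succ n ih =>
    intro hn he
    rw [sum_range_succ]
    have h1 := ih (by omega) (fun j hj => he j (by omega))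
    have h2 : |∑ i, e n i * (v n i i' : ℤ)| ≤ ∑ i, (v n i i' : ℤ) :=
      (abs_sum_le_sum_abs _ _).trans (sum_le_sum fun i _ => prod_abs_le _ (he n (by omega) i) _)
    have h3 : ∑ i, (v n i i' : ℤ) ≤ (L : ℤ) * (T n + 3 * W n + W n) + 2 * ((L : ℤ) * W n) := by
      have hd : ((v n i' i' : ℕ) : ℤ) ≤ (L : ℤ) * (T n + 3 * W n + W n) := by
        exact_mod_cast (hg.hhi n (by omega) i').le
      have ho : ∀ i, i ≠ i' → ((v n i i' : ℕ) : ℤ) ≤ (L : ℤ) * W n := fun i hi => by
        exact_mod_cast (hg.hoff n (by omega) i i' hi).le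
      rw [Fin.sum_univ_three]
      rcases (by fin_cases i' <;> simp : i' = 0 ∨ i' = 1 ∨ i' = 2) with rfl | rfl | rfl
      · linarith [ho 1 (by decide), ho 2 (by decide)]
      · linarith [ho 0 (by decide), ho 2 (by decide)]
      · linarith [ho 0 (by decide), ho 1 (by decide)]
    have h4 := abs_add_le (∑ j ∈ range n, ∑ i, e j i * (v j i i' : ℤ)) (∑ i, e n i * (v n i i' : ℤ))
    rw [hg.hT]
    push_cast
    nlinarith [h1, h2, h3, h4]

lemma cert {L J : ℕ} {W T : ℕ → ℕ} {v : ℕ → Fin 3 → Fin 3 → ℕ} (hg : Good L J W T v)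
    (e : ℕ → Fin 3 → ℤ) : ∀ n, n ≤ J → (∀ j < n, ∀ i, |e j i| ≤ 1) →
    (∀ i', ∑ j ∈ range n, ∑ i, e j i * (v j i i' : ℤ) = 0) → ∀ j < n, ∀ i, e j i = 0 := by
  intro n
  induction n with
  | zero => intro _ _ _ j hj; omega
  | succ n ih =>
    intro hn he hs
    have htop : ∀ i, e n i = 0 := by
      intro i
      have h1 := total_bound hg e i n (by omega) (fun j hj => he j (by omega))
      have h2 := hs i
      rw [sum_range_succ] at h2
      refine top_zero _ (e n) (he n (by omega)) (fun k => v n k i) i ((L : ℤ) * W n)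
        ((L : ℤ) * T n) ((L : ℤ) * (T n + 3 * W n)) ?_ h1 ?_ ?_ h2
      · intro k hk
        exact_mod_cast hg.hoff n (by omega) k i hk
      · exact_mod_cast hg.hlo n (by omega) i
      · have : (0 : ℤ) ≤ (L : ℤ) * W n := by positivity
        nlinarith
    intro j hj i
    rcases Nat.lt_succ_iff_lt_or_eq.1 hj with h | h
    · refine ih (by omega) (fun j hj => he j (by omega)) ?_ j h i
      intro i'
      have h2 := hs i'
      rw [sum_range_succ] at h2
      simpa [htop] using h2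
    · rw [h]; exact htop i

/-- the family version -/
lemma family {L R J : ℕ} [NeZero (L * R)] {W T : ℕ → ℕ} (hTR : T J < R) (hL : 0 < L)
    (c : ℕ → Fin 3 → ℕ) (t : Fin 3 → ZMod (L * R))
    (hg : Good L J W T (fun j i i' => ((c j i : ZMod (L * R)) * t i').val))
    (e : ℕ → Fin 3 → ℤ) (he : ∀ j < J, ∀ i, |e j i| ≤ 1)
    (hs : ∑ j ∈ range J, ∑ i, e j i * (c j i : ℤ) = 0) : ∀ j < J, ∀ i, e j i = 0 := by
  refine cert hg e J le_rfl he ?_
  intro i'
  have h1 := total_bound hg e i' J le_rfl he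
  have h2 : |∑ j ∈ range J, ∑ i, e j i * ((((c j i : ZMod (L * R)) * t i').val : ℕ) : ℤ)|
      < ((L * R : ℕ) : ℤ) := by
    refine lt_of_le_of_lt h1 ?_
    push_cast
    have : (T J : ℤ) < R := by exact_mod_cast hTR
    exact mul_lt_mul_of_pos_left this (by exact_mod_cast hL)
  refine Int.eq_zero_of_abs_lt_dvd ?_ h2
  rw [← ZMod.intCast_zmod_eq_zero_iff_dvd]
  push_cast
  have h3 : ∀ j i, (((((c j i : ZMod (L * R)) * t i').val : ℕ) : ZMod (L * R)))
      = (c j i : ZMod (L * R)) * t i' := fun j i => ZMod.natCast_zmod_val _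
  try simp only [h3]
  have h4 := congrArg (fun z : ℤ => (z : ZMod (L * R)) * t i') hs
  push_cast at h4
  rw [zero_mul, sum_mul] at h4
  rw [← h4]
  apply sum_congr rfl
  intro j _
  rw [sum_mul]
  apply sum_congr rfl
  intro i _
  ring

open H25.E963 in
/-- the set version -/
lemma family_set {L R J : ℕ} [NeZero (L * R)] {W T : ℕ → ℕ} (hTR : T J < R) (hL : 0 < L)
    (c : ℕ → Fin 3 → ℕ) (t : Fin 3 → ZMod (L * R))
    (hg : Good L J W T (fun j i i' => ((c j i : ZMod (L * R)) * t i').val)) :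
    #((range J ×ˢ (univ : Finset (Fin 3))).image (fun x => c x.1 x.2)) = 3 * J ∧
      RFn ((range J ×ˢ (univ : Finset (Fin 3))).image (fun x => c x.1 x.2)) := by
  classical
  have hinj : Set.InjOn (fun x : ℕ × Fin 3 => c x.1 x.2)
      ((range J ×ˢ (univ : Finset (Fin 3)) : Finset (ℕ × Fin 3)) : Set (ℕ × Fin 3)) := by
    intro x hx y hy hxy
    by_contra hne
    have hx' : x.1 < J := mem_range.1 (mem_product.1 (mem_coe.1 hx)).1
    have hy' : y.1 < J := mem_range.1 (mem_product.1 (mem_coe.1 hy)).1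
    have h := family hTR hL c t hg
      (fun j i => (if (j, i) = x then 1 else 0) - (if (j, i) = y then 1 else 0)) (by
        intro j _ i
        split_ifs with h1 h2
        all_goals simp) (by
        have h1 : ∑ j ∈ range J, ∑ i : Fin 3,
            ((if (j, i) = x then (1 : ℤ) else 0) - (if (j, i) = y then 1 else 0)) * (c j i : ℤ)
            = ∑ z ∈ range J ×ˢ (univ : Finset (Fin 3)),
              ((if z = x then (1 : ℤ) else 0) - (if z = y then 1 else 0)) * (c z.1 z.2 : ℤ) := by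
          rw [sum_product]
        rw [h1]
        simp only [sub_mul, ite_mul, one_mul, zero_mul, sum_sub_distrib]
        rw [sum_ite_eq', sum_ite_eq', if_pos (mem_coe.1 hx), if_pos (mem_coe.1 hy)]
        simp only at hxy
        rw [hxy, sub_self]) x.1 hx' x.2
    simp only [Prod.mk.eta, if_true] at h
    rw [if_neg hne] at h
    norm_num at h
  constructor
  · rw [card_image_of_injOn hinj, card_product, card_range, card_univ, Fintype.card_fin, mul_comm]
  · intro e he hs z hz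
    rw [sum_image hinj, sum_product] at hs
    obtain ⟨x, hx, rfl⟩ := mem_image.1 hz
    have hx' : x.1 < J := mem_range.1 (mem_product.1 hx).1
    exact family hTR hL c t hg (fun j i => e (c j i)) (by
      intro j hj i
      exact he _ (mem_image.2 ⟨(j, i), mem_product.2 ⟨mem_range.2 hj, mem_univ _⟩, rfl⟩)) hs
      x.1 hx' x.2

end H346R3.E963
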