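import Mathlib

set_option autoImplicit false

/-!
Counting in `ZMod (L * R)`: arcs with end points in `L ℤ` are hit with the right frequency by
`t ↦ p t` for `p ∣ L`, and two dilations are nearly independent.
-/

namespace H346R3.E963

open Finset

/-- indicator of an arc -/
noncomputable def F (M L α w : ℕ) (x : ZMod M) : ℝ :=
  if L * α ≤ x.val ∧ x.val < L * (α + w) then 1 else 0

lemma F_nonneg (M L α w : ℕ) (x : ZMod M) : 0 ≤ F M L α w x := by
  unfold F; split_ifs <;> norm_num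

lemma F_sq (M L α w : ℕ) (x : ZMod M) : F M L α w x * F M L α w x = F M L α w x := by
  unfold F; split_ifs <;> norm_num

lemma sum_range_div (ℓ n : ℕ) (hℓ : 0 < ℓ) (g : ℕ → ℝ) :
    ∑ t ∈ range (ℓ * n), g (t / ℓ) = ℓ * ∑ r ∈ range n, g r := by
  induction n with
  | zero => simp
  | succ n ih =>
    rw [Nat.mul_succ, sum_range_add, ih, sum_range_succ, mul_add]
    congr 1
    rw [sum_congr rfl (g := fun _ => g n)]
    · simp
    · intro s hs
      rw [mem_range] at hs
      congr 1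
      rw [Nat.mul_add_div hℓ, Nat.div_eq_of_lt hs, add_zero]

lemma sum_range_mod (R p : ℕ) (g : ℕ → ℝ) :
    ∑ r ∈ range (R * p), g (r % R) = p * ∑ r ∈ range R, g r := by
  induction p with
  | zero => simp
  | succ p ih =>
    rw [Nat.mul_succ, sum_range_add, ih]
    push_cast
    rw [add_mul, one_mul]
    congr 1
    apply sum_congr rfl
    intro s hs
    rw [mem_range] at hs
    congr 1
    rw [Nat.mul_add_mod, Nat.mod_eq_of_lt hs]

lemma sum_zmod (M : ℕ) [NeZero M] (f : ZMod M → ℝ) :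
    ∑ t : ZMod M, f t = ∑ t ∈ range M, f (t : ZMod M) := by
  refine Finset.sum_nbij' (fun t => t.val) (fun t => (t : ZMod M)) ?_ ?_ ?_ ?_ ?_
  · intro t _; exact mem_range.2 (ZMod.val_lt t)
  · intro t _; exact mem_univ _
  · intro t _; exact ZMod.natCast_zmod_val t
  · intro t ht; exact ZMod.val_cast_of_lt (mem_range.1 ht)
  · intro t _; rw [ZMod.natCast_zmod_val]

lemma sum_window (R α w : ℕ) (h : α + w ≤ R) :
    ∑ r ∈ range R, (if α ≤ r ∧ r < α + w then (1 : ℝ) else 0) = w := by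
  rw [← sum_filter, sum_const, nsmul_eq_mul, mul_one]
  have : (range R).filter (fun r => α ≤ r ∧ r < α + w) = Ico α (α + w) := by
    ext r
    simp only [mem_filter, mem_range, mem_Ico]
    omega
  rw [this, Nat.card_Ico, Nat.add_sub_cancel_left]

/-- uniformity -/
lemma sum_F (L R p α w : ℕ) [NeZero (L * R)] (hp : 0 < p) (hpL : p ∣ L) (hL : 0 < L)
    (h : α + w ≤ R) :
    ∑ t : ZMod (L * R), F (L * R) L α w ((p : ZMod (L * R)) * t) = (L : ℝ) * w := by
  obtain ⟨ℓ, rfl⟩ := hpL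
  have hℓ : 0 < ℓ := Nat.pos_of_mul_pos_left hL |> fun h => by
    rcases Nat.eq_zero_or_pos ℓ with h0 | h0
    · subst h0; simp at hL
    · exact h0
  rw [sum_zmod]
  have e1 : ∀ t ∈ range (p * ℓ * R), F (p * ℓ * R) (p * ℓ) α w
      ((p : ZMod (p * ℓ * R)) * (t : ZMod (p * ℓ * R)))
      = (fun r => (fun s => if α ≤ s ∧ s < α + w then (1 : ℝ) else 0) (r % R)) (t / ℓ) := by
    intro t _
    unfold F
    rw [← Nat.cast_mul, ZMod.val_natCast]
    have h1 : (p * t) % (p * ℓ * R) / (p * ℓ) = (t / ℓ) % R := by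
      rw [Nat.mod_mul_right_div_self, Nat.mul_div_mul_left _ _ hp]
    have hpl : 0 < p * ℓ := hL
    have h2 : (p * ℓ * α ≤ (p * t) % (p * ℓ * R)) ↔ α ≤ (t / ℓ) % R := by
      rw [← h1, Nat.le_div_iff_mul_le hpl, mul_comm α]
    have h3 : ((p * t) % (p * ℓ * R) < p * ℓ * (α + w)) ↔ (t / ℓ) % R < α + w := by
      rw [← h1, Nat.div_lt_iff_lt_mul hpl, mul_comm (α + w)]
    simp only [h2, h3]
  rw [sum_congr rfl e1]
  have e2 : p * ℓ * R = ℓ * (R * p) := by ring
  rw [e2, sum_range_div ℓ (R * p) hℓ (fun r => (fun s => if α ≤ s ∧ s < α + w then (1 : ℝ) else 0) (r % R)),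
    sum_range_mod R p (fun s => if α ≤ s ∧ s < α + w then (1 : ℝ) else 0), sum_window R α w h]
  push_cast
  ring

/-- points of a progression in an arc -/
lemma sum_shift (L R a b c α w : ℕ) [NeZero (L * R)] (hL : 0 < L) (hR : 0 < R)
    (hbc : b * c = L * R) (hab : Nat.Coprime a b) (x : ZMod (L * R)) :
    ∑ i ∈ range b, F (L * R) L α w (x + ((a * i * c : ℕ) : ZMod (L * R))) ≤ (b : ℝ) * w / R + 1 := by
  classical
  have hc : 0 < c := by
    rcases Nat.eq_zero_or_pos c with h0 | h0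
    · subst h0
      have := Nat.mul_pos hL hR
      omega
    · exact h0
  have hb : 0 < b := by
    rcases Nat.eq_zero_or_pos b with h0 | h0
    · subst h0
      have := Nat.mul_pos hL hR
      omega
    · exact h0
  unfold F
  rw [← sum_filter, sum_const, nsmul_eq_mul, mul_one]
  set I := (range b).filter (fun i => L * α ≤ (x + ((a * i * c : ℕ) : ZMod (L * R))).val ∧
    (x + ((a * i * c : ℕ) : ZMod (L * R))).val < L * (α + w)) with hI
  have hval : ∀ i : ℕ, (x + ((a * i * c : ℕ) : ZMod (L * R))).val = (x.val + a * i * c) % (L * R) := by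
    intro i
    rw [ZMod.val_add, ZMod.val_natCast, Nat.add_mod_mod]
  have hcard : #I ≤ #((Ico (L * α) (L * (α + w))).filter (fun v => v ≡ x.val [MOD c])) := by
    apply card_le_card_of_injOn (fun i => (x + ((a * i * c : ℕ) : ZMod (L * R))).val)
    · intro i hi
      rw [hI, coe_filter] at hi
      simp only [Set.mem_ofPred_eq] at hi
      rw [coe_filter]
      refine ⟨mem_Ico.2 hi.2, ?_⟩
      beta_reduce
      rw [hval]
      have h1 : (x.val + a * i * c) % (L * R) ≡ x.val + a * i * c [MOD c] := by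
        exact (Nat.mod_modEq _ _).of_dvd ⟨b, by rw [← hbc]; ring⟩
      refine h1.trans ?_
      have h2 : x.val + a * i * c ≡ x.val + 0 [MOD c] :=
        Nat.ModEq.add_left _ ((Nat.modEq_zero_iff_dvd).2 (Dvd.intro_left (a * i) rfl))
      simpa using h2
    · intro i hi j hj hij
      rw [hI, coe_filter] at hi hj
      simp only [Set.mem_ofPred_eq, mem_range] at hi hj
      have h1 : x + ((a * i * c : ℕ) : ZMod (L * R)) = x + ((a * j * c : ℕ) : ZMod (L * R)) :=
        ZMod.val_injective _ hij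
      have h2 : ((a * i * c : ℕ) : ZMod (L * R)) = ((a * j * c : ℕ) : ZMod (L * R)) :=
        add_left_cancel h1
      rw [ZMod.natCast_eq_natCast_iff, ← hbc] at h2
      have h3 : a * i ≡ a * j [MOD b] := Nat.ModEq.mul_right_cancel' hc.ne' h2
      have h4 : i ≡ j [MOD b] := Nat.ModEq.cancel_left_of_coprime (by
        rw [Nat.gcd_comm]; exact hab) h3
      exact Nat.ModEq.eq_of_lt_of_lt h4 hi.1 hj.1
  have hcount : ((#((Ico (L * α) (L * (α + w))).filter (fun v => v ≡ x.val [MOD c])) : ℕ) : ℝ)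
      ≤ (L * w : ℝ) / c + 1 := by
    have h1 := Nat.Ico_filter_modEq_card (L * α) (L * (α + w)) hc x.val
    have h2 : ((#((Ico (L * α) (L * (α + w))).filter (fun v => v ≡ x.val [MOD c])) : ℤ) : ℚ)
        ≤ (L * w : ℚ) / c + 1 := by
      rw [h1]
      push_cast
      apply max_le
      · have h3 : ((⌈((L : ℚ) * (α + w) - (x.val : ℚ)) / (c : ℚ)⌉ : ℤ) : ℚ) < ((L : ℚ) * (α + w) - (x.val : ℚ)) / (c : ℚ) + 1 := Int.ceil_lt_add_one _
        have h4 : ((L : ℚ) * α - (x.val : ℚ)) / (c : ℚ) ≤ ((⌈((L : ℚ) * α - (x.val : ℚ)) / (c : ℚ)⌉ : ℤ) : ℚ) := Int.le_ceil _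
        have h5 : ((L : ℚ) * (α + w) - (x.val : ℚ)) / (c : ℚ) - ((L : ℚ) * α - (x.val : ℚ)) / (c : ℚ)
            = (L * w : ℚ) / c := by
          ring
        linarith
      · positivity
    have h6 : (((#((Ico (L * α) (L * (α + w))).filter (fun v => v ≡ x.val [MOD c])) : ℕ) : ℚ) : ℝ)
        ≤ (((L * w : ℚ) / c + 1 : ℚ) : ℝ) := by
      exact_mod_cast h2
    push_cast at h6
    exact h6
  have h7 : (L * w : ℝ) / c = (b : ℝ) * w / R := by
    have hcR : (c : ℝ) ≠ 0 := by exact_mod_cast hc.ne'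
    have hRR : (R : ℝ) ≠ 0 := by exact_mod_cast hR.ne'
    have h8 : (b : ℝ) * c = L * R := by exact_mod_cast hbc
    rw [div_eq_div_iff hcR hRR]
    calc (L : ℝ) * w * R = (L * R) * w := by ring
      _ = b * c * w := by rw [h8]
      _ = b * w * c := by ring
  calc ((#I : ℕ) : ℝ) ≤ _ := by exact_mod_cast hcard
    _ ≤ (L * w : ℝ) / c + 1 := hcount
    _ = _ := by rw [h7]

/-- near independence of two dilations -/
lemma pair_F (L R g a b α w : ℕ) [NeZero (L * R)] (hL : 0 < L) (hR : 0 < R) (hg : 0 < g)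
    (hb : 0 < b) (hab : Nat.Coprime a b) (hq : g * b ∣ L) (h : α + w ≤ R) :
    ∑ t : ZMod (L * R), F (L * R) L α w (((g * a : ℕ) : ZMod (L * R)) * t) *
      F (L * R) L α w (((g * b : ℕ) : ZMod (L * R)) * t) ≤
      (L : ℝ) * w * ((w : ℝ) / R + 1 / b) := by
  obtain ⟨m, hm⟩ := hq
  set M := L * R with hM
  set c := g * m * R with hc
  have hbc : b * c = L * R := by rw [hc, hm]; ring
  set s : ℕ → ZMod M := fun i => ((i * m * R : ℕ) : ZMod M) with hs
  have hqs : ∀ i, ((g * b : ℕ) : ZMod M) * s i = 0 := by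
    intro i
    simp only [hs]
    rw [← Nat.cast_mul]
    have : g * b * (i * m * R) = M * i := by rw [hM, hm]; ring
    rw [this, Nat.cast_mul, ZMod.natCast_self, zero_mul]
  have hps : ∀ i, ((g * a : ℕ) : ZMod M) * s i = ((a * i * c : ℕ) : ZMod M) := by
    intro i
    simp only [hs]
    rw [← Nat.cast_mul]
    congr 1
    rw [hc]; ring
  set S := ∑ t : ZMod M, F M L α w (((g * a : ℕ) : ZMod M) * t) *
      F M L α w (((g * b : ℕ) : ZMod M) * t) with hS
  have hshift : ∀ i, S = ∑ t : ZMod M, F M L α w (((g * a : ℕ) : ZMod M) * t + ((a * i * c : ℕ) : ZMod M)) *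
      F M L α w (((g * b : ℕ) : ZMod M) * t) := by
    intro i
    rw [hS, ← Equiv.sum_comp (Equiv.addRight (s i))]
    apply sum_congr rfl
    intro t _
    simp only [Equiv.coe_addRight]
    rw [mul_add, mul_add, hqs, hps, add_zero]
  have h1 : (b : ℝ) * S = ∑ t : ZMod M, (∑ i ∈ range b,
      F M L α w (((g * a : ℕ) : ZMod M) * t + ((a * i * c : ℕ) : ZMod M))) *
      F M L α w (((g * b : ℕ) : ZMod M) * t) := by
    calc (b : ℝ) * S = ∑ i ∈ range b, S := by rw [sum_const, card_range, nsmul_eq_mul]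
      _ = ∑ i ∈ range b, ∑ t : ZMod M, F M L α w (((g * a : ℕ) : ZMod M) * t + ((a * i * c : ℕ) : ZMod M)) *
      F M L α w (((g * b : ℕ) : ZMod M) * t) := sum_congr rfl fun i _ => hshift i
      _ = _ := by
        rw [sum_comm]
        apply sum_congr rfl
        intro t _
        rw [sum_mul]
  have h2 : (b : ℝ) * S ≤ ((b : ℝ) * w / R + 1) * (L * w) := by
    rw [h1, ← sum_F L R (g * b) α w (Nat.mul_pos hg hb) ⟨m, hm⟩ hL h, mul_sum]
    apply sum_le_sum
    intro t _
    exact mul_le_mul_of_nonneg_right (sum_shift L R a b c α w hL hR hbc hab _) (F_nonneg _ _ _ _ _)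
  have hbR : (0 : ℝ) < b := by exact_mod_cast hb
  have h3 : S ≤ ((b : ℝ) * w / R + 1) * (L * w) / b := by
    rw [le_div_iff₀ hbR]; linarith
  calc S ≤ _ := h3
    _ = _ := by
      have hRR : (R : ℝ) ≠ 0 := by exact_mod_cast hR.ne'
      field_simp

end H346R3.E963
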