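import Mathlib

set_option autoImplicit false

/-!
A gcd sum: for distinct `q` the heights of the fractions `p / q` are large on average.
-/

namespace H346R3.E963

open Finset

/-- the height of the fraction `p / q` -/
def bb (p q : ℕ) : ℕ := max p q / Nat.gcd p q

lemma bb_ge_two {p q : ℕ} (hp : 0 < p) (hq : 0 < q) (hne : q ≠ p) : 2 ≤ bb p q := by
  unfold bb
  have hg : 0 < Nat.gcd p q := Nat.gcd_pos_of_pos_left _ hp
  rw [Nat.le_div_iff_mul_le hg]
  obtain ⟨a, ha⟩ := Nat.gcd_dvd_left p q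
  obtain ⟨b, hb⟩ := Nat.gcd_dvd_right p q
  set g := Nat.gcd p q with hgdef
  have ha0 : 0 < a := by
    rcases Nat.eq_zero_or_pos a with h | h
    · subst h; omega
    · exact h
  have hb0 : 0 < b := by
    rcases Nat.eq_zero_or_pos b with h | h
    · subst h; omega
    · exact h
  rcases Nat.lt_or_ge a b with h | h
  · have h1 : g * 2 ≤ g * b := Nat.mul_le_mul_left g (by omega)
    exact le_trans (by omega) (le_max_right p q)
  · have hab : a ≠ b := by
      intro h0
      apply hne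
      rw [ha, hb, h0]
    have h1 : g * 2 ≤ g * a := Nat.mul_le_mul_left g (by omega)
    exact le_trans (by omega) (le_max_left p q)

lemma bb_le {p q N : ℕ} (hp : p ≤ N) (hq : q ≤ N) : bb p q ≤ N :=
  (Nat.div_le_self _ _).trans (max_le hp hq)

lemma fiber_card (P : Finset ℕ) (hpos : ∀ p ∈ P, 0 < p) (p : ℕ) (hp : 0 < p) (B : ℕ) (hB : 0 < B) :
    #((P.erase p).filter (fun q => bb p q = B)) ≤ 2 * B := by
  classical
  have h1 : #((P.erase p).filter (fun q => bb p q = B)) ≤ #(range B ×ˢ (univ : Finset Bool)) := by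
    apply card_le_card_of_injOn (fun q => (min p q / Nat.gcd p q, decide (q < p)))
    · intro q hq
      rw [coe_filter] at hq
      obtain ⟨hq1, hq2⟩ := hq
      have hqne := (mem_erase.1 hq1).1
      have hg : 0 < Nat.gcd p q := Nat.gcd_pos_of_pos_left _ hp
      rw [mem_coe, mem_product]
      refine ⟨mem_range.2 ?_, mem_univ _⟩
      beta_reduce
      rw [← hq2]
      unfold bb
      have hlt : min p q < max p q := min_lt_max.2 (Ne.symm hqne)
      have hd : Nat.gcd p q ∣ max p q := by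
        rcases le_total p q with h | h
        · rw [max_eq_right h]; exact Nat.gcd_dvd_right _ _
        · rw [max_eq_left h]; exact Nat.gcd_dvd_left _ _
      exact Nat.div_lt_div_of_lt_of_dvd hd hlt
    · intro q hq q' hq' hqq
      rw [coe_filter] at hq hq'
      obtain ⟨hq1, hq2⟩ := hq
      obtain ⟨hq1', hq2'⟩ := hq'
      have hqne := (mem_erase.1 hq1).1
      have hqne' := (mem_erase.1 hq1').1
      have hm := congrArg Prod.fst hqq
      have hf := congrArg Prod.snd hqq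
      simp only [decide_eq_decide] at hm hf
      obtain ⟨a, ha⟩ := Nat.gcd_dvd_left p q
      obtain ⟨b, hb⟩ := Nat.gcd_dvd_right p q
      obtain ⟨a', ha'⟩ := Nat.gcd_dvd_left p q'
      obtain ⟨b', hb'⟩ := Nat.gcd_dvd_right p q'
      have hg : 0 < Nat.gcd p q := Nat.gcd_pos_of_pos_left _ hp
      have hg' : 0 < Nat.gcd p q' := Nat.gcd_pos_of_pos_left _ hp
      unfold bb at hq2 hq2'
      have da : p / Nat.gcd p q = a := Nat.div_eq_of_eq_mul_right hg ha
      have db : q / Nat.gcd p q = b := Nat.div_eq_of_eq_mul_right hg hb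
      have da' : p / Nat.gcd p q' = a' := Nat.div_eq_of_eq_mul_right hg' ha'
      have db' : q' / Nat.gcd p q' = b' := Nat.div_eq_of_eq_mul_right hg' hb'
      by_cases hlt : q < p
      · have hlt' := hf.1 hlt
        rw [max_eq_left hlt.le, da] at hq2
        rw [max_eq_left hlt'.le, da'] at hq2'
        rw [min_eq_right hlt.le, min_eq_right hlt'.le, db, db'] at hm
        have hgg : Nat.gcd p q = Nat.gcd p q' := by
          apply Nat.eq_of_mul_eq_mul_right hB
          rw [← hq2] at hq2' ⊢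
          rw [← ha, ← hq2', ← ha']
        rw [hb, hb', hm, hgg]
      · have hlt' : ¬ q' < p := fun h => hlt (hf.2 h)
        have h2 : p < q := by omega
        have h2' : p < q' := by omega
        rw [max_eq_right h2.le, db] at hq2
        rw [max_eq_right h2'.le, db'] at hq2'
        rw [min_eq_left h2.le, min_eq_left h2'.le, da, da'] at hm
        have ha0 : 0 < a := by
          rcases Nat.eq_zero_or_pos a with h | h
          · subst h; omega
          · exact h
        have hgg : Nat.gcd p q = Nat.gcd p q' := by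
          apply Nat.eq_of_mul_eq_mul_right ha0
          rw [← ha]
          rw [hm, ← ha']
        rw [hb, hb', hq2, hq2', hgg]
  rw [card_product, card_range, card_univ, Fintype.card_bool] at h1
  omega

lemma sum_bb (P : Finset ℕ) (hpos : ∀ p ∈ P, 0 < p) (p : ℕ) (hp : 0 < p) (N : ℕ) (hpN : p ≤ N)
    (hN : ∀ q ∈ P, q ≤ N) (G : ℕ → ℝ) (hG : ∀ b, 0 ≤ G b) :
    ∑ q ∈ P.erase p, G (bb p q) ≤ ∑ B ∈ Icc 2 N, (2 * B : ℝ) * G B := by
  classical
  rw [← sum_fiberwise_of_maps_to (s := P.erase p) (t := Icc 2 N) (g := fun q => bb p q)]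
  · apply sum_le_sum
    intro B hB
    rw [mem_Icc] at hB
    have h1 : ∑ q ∈ (P.erase p).filter (fun q => bb p q = B), G (bb p q)
        = (#((P.erase p).filter (fun q => bb p q = B)) : ℝ) * G B := by
      rw [← nsmul_eq_mul, ← sum_const]
      apply sum_congr rfl
      intro q hq
      rw [(mem_filter.1 hq).2]
    rw [h1]
    apply mul_le_mul_of_nonneg_right _ (hG B)
    exact_mod_cast fiber_card P hpos p hp B (by omega)
  · intro q hq
    have hq' := mem_erase.1 hq
    exact mem_Icc.2 ⟨bb_ge_two hp (hpos q hq'.2) hq'.1, bb_le hpN (hN q hq'.2)⟩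

lemma sum_cube (N : ℕ) (hN : 1 ≤ N) : ∑ B ∈ Icc 2 N, (2 * B : ℝ) * (1 / (B : ℝ) ^ 3) ≤ (2 : ℝ) - 2 / (N : ℝ) := by
  induction N, hN using Nat.le_induction with
  | base => simp
  | succ n hn ih =>
    rw [sum_Icc_succ_top (by omega)]
    have hn' : (0 : ℝ) < n := by exact_mod_cast hn
    push_cast
    have h1 : (2 * ((n : ℝ) + 1)) * (1 / ((n : ℝ) + 1) ^ 3) = 2 / ((n : ℝ) + 1) ^ 2 := by
      field_simp
    rw [h1]
    have h2 : 2 / ((n : ℝ) + 1) ^ 2 ≤ 2 / n - 2 / ((n : ℝ) + 1) := by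
      rw [div_sub_div _ _ hn'.ne' (by positivity), div_le_div_iff₀ (by positivity) (by positivity)]
      nlinarith
    linarith

lemma sum_trunc (N h : ℕ) :
    ∑ B ∈ Icc 2 N, (2 * B : ℝ) * (if B < h then 1 / (B : ℝ) else 0) ≤ 2 * h := by
  have h1 : ∀ B ∈ Icc 2 N, (2 * B : ℝ) * (if B < h then 1 / (B : ℝ) else 0)
      = if B < h then 2 else 0 := by
    intro B hB
    rw [mem_Icc] at hB
    have hB' : (B : ℝ) ≠ 0 := by
      have : 0 < B := by omega
      exact_mod_cast this.ne'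
    split_ifs
    · field_simp
    · simp
  rw [sum_congr rfl h1, ← sum_filter, sum_const, nsmul_eq_mul, mul_comm]
  apply mul_le_mul_of_nonneg_left _ (by norm_num)
  have h2 : (Icc 2 N).filter (fun B => B < h) ⊆ range h := by
    intro B hB
    exact mem_range.2 (mem_filter.1 hB).2
  have h3 := card_le_card h2
  rw [card_range] at h3
  exact_mod_cast h3

/-- the cubic gcd sum -/
lemma gcd_sum (P : Finset ℕ) (hpos : ∀ p ∈ P, 0 < p) (p : ℕ) (hp : p ∈ P) (ω : ℝ) (hω : 0 ≤ ω)
    (h : ℕ) (hh : 0 < h) (hh2 : h * h ≤ #P) :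
    ∑ q ∈ P.erase p, (ω * (ω + 1 / (bb p q : ℝ))) ^ 3 ≤
      #P * ω ^ 6 + 27 / 2 * (#P * ω ^ 5 / h) + 5 * ω ^ 3 := by
  classical
  have hp0 := hpos p hp
  set N := P.sup id with hNdef
  have hN : ∀ q ∈ P, q ≤ N := fun q hq => le_sup (f := id) hq
  have hN1 : 1 ≤ N := le_trans hp0 (hN p hp)
  have hhR : (0 : ℝ) < h := by exact_mod_cast hh
  have hpt : ∀ q ∈ P.erase p, (ω * (ω + 1 / (bb p q : ℝ))) ^ 3 ≤
      (ω ^ 6 + 9 / 2 * (ω ^ 5 / h)) + 9 / 2 * ω ^ 5 * (if bb p q < h then 1 / (bb p q : ℝ) else 0)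
        + 5 / 2 * ω ^ 3 * (1 / (bb p q : ℝ) ^ 3) := by
    intro q hq
    have hq' := mem_erase.1 hq
    have hb2 := bb_ge_two hp0 (hpos q hq'.2) hq'.1
    have hb0 : (0 : ℝ) < bb p q := by
      have : 0 < bb p q := by omega
      exact_mod_cast this
    set x : ℝ := 1 / (bb p q : ℝ) with hx
    have hx0 : 0 ≤ x := by positivity
    have hx3 : 1 / (bb p q : ℝ) ^ 3 = x ^ 3 := by rw [hx]; field_simp
    have hxh : x ≤ 1 / h + (if bb p q < h then x else 0) := by
      split_ifs with hlt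
      · have : (0 : ℝ) < 1 / h := by positivity
        linarith
      · rw [add_zero, hx]
        apply one_div_le_one_div_of_le hhR
        exact_mod_cast Nat.not_lt.1 hlt
    rw [hx3]
    have h5 : 0 ≤ ω ^ 5 := by positivity
    have h6 : ω ^ 5 * x ≤ ω ^ 5 * (1 / h + (if bb p q < h then x else 0)) :=
      mul_le_mul_of_nonneg_left hxh h5
    have h7 : 0 ≤ ω ^ 3 * x * (ω - x) ^ 2 := by positivity
    have h8 : ω ^ 5 / h = ω ^ 5 * (1 / h) := by ring
    rw [h8]
    nlinarith [h6, h7]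
  refine (sum_le_sum hpt).trans ?_
  rw [sum_add_distrib, sum_add_distrib, ← mul_sum, ← mul_sum, sum_const, nsmul_eq_mul]
  have e1 := (sum_bb P hpos p hp0 N (hN p hp) hN (fun b => if b < h then 1 / (b : ℝ) else 0)
    (fun b => by positivity)).trans (sum_trunc N h)
  have e2 := (sum_bb P hpos p hp0 N (hN p hp) hN (fun b => 1 / (b : ℝ) ^ 3)
    (fun b => by positivity)).trans (sum_cube N hN1)
  have e3 : (0 : ℝ) ≤ 2 / N := by positivity
  have hcard : ((#(P.erase p) : ℕ) : ℝ) ≤ #P := by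
    exact_mod_cast card_le_card (erase_subset p P)
  have hω5 : 0 ≤ ω ^ 5 := by positivity
  have hω3 : 0 ≤ ω ^ 3 := by positivity
  have hc : 0 ≤ ω ^ 6 + 9 / 2 * (ω ^ 5 / h) := by positivity
  have e4 : ((#(P.erase p) : ℕ) : ℝ) * (ω ^ 6 + 9 / 2 * (ω ^ 5 / h))
      ≤ #P * (ω ^ 6 + 9 / 2 * (ω ^ 5 / h)) := mul_le_mul_of_nonneg_right hcard hc
  have e5 : (h : ℝ) ≤ #P / h := by
    rw [le_div_iff₀ hhR]
    exact_mod_cast hh2
  have e6 : 9 / 2 * ω ^ 5 * (∑ q ∈ P.erase p, (if bb p q < h then 1 / (bb p q : ℝ) else 0))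
      ≤ 9 / 2 * ω ^ 5 * (2 * (#P / h)) := by
    apply mul_le_mul_of_nonneg_left _ (by positivity)
    linarith
  have e7 : 5 / 2 * ω ^ 3 * (∑ q ∈ P.erase p, (1 / (bb p q : ℝ) ^ 3))
      ≤ 5 / 2 * ω ^ 3 * 2 := by
    apply mul_le_mul_of_nonneg_left _ (by positivity)
    linarith
  calc _ ≤ #P * (ω ^ 6 + 9 / 2 * (ω ^ 5 / h)) + 9 / 2 * ω ^ 5 * (2 * (#P / h)) + 5 / 2 * ω ^ 3 * 2 := by
        linarith
    _ = _ := by ring

end H346R3.E963
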