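import Mathlib
import Pool.Agent.H346R3.E963.Count
import Pool.Agent.H346R3.E963.Gcd

set_option autoImplicit false

/-!
The second moment of the number of elements of `P` in a cubical window of the three dimensional
torus.
-/

namespace H346R3.E963

open Finset

/-- indicator that the three dilates of `p` lie in the window -/
noncomputable def A (L R w : ℕ) (α : Fin 3 → ℕ) (p : ℕ) (t : Fin 3 → ZMod (L * R)) : ℝ :=
  ∏ k, F (L * R) L (α k) w ((p : ZMod (L * R)) * t k)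

/-- the number of elements in the window -/
noncomputable def X (L R w : ℕ) (α : Fin 3 → ℕ) (P : Finset ℕ) (t : Fin 3 → ZMod (L * R)) : ℝ :=
  ∑ p ∈ P, A L R w α p t

lemma sum_prod3 (M : ℕ) [NeZero M] (f : Fin 3 → ZMod M → ℝ) :
    ∑ t : Fin 3 → ZMod M, ∏ k, f k (t k) = ∏ k, ∑ x : ZMod M, f k x := by
  classical
  rw [prod_univ_sum, Fintype.piFinset_univ]

lemma sum_A (L R w : ℕ) [NeZero (L * R)] (α : Fin 3 → ℕ) (p : ℕ) (hp : 0 < p) (hpL : p ∣ L)
    (hL : 0 < L) (hα : ∀ k, α k + w ≤ R) :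
    ∑ t : Fin 3 → ZMod (L * R), A L R w α p t = ((L : ℝ) * w) ^ 3 := by
  unfold A
  rw [sum_prod3 (L * R) (fun k x => F (L * R) L (α k) w ((p : ZMod (L * R)) * x))]
  rw [prod_congr rfl (fun k _ => sum_F L R p (α k) w hp hpL hL (hα k))]
  simp

lemma sum_AA (L R w : ℕ) [NeZero (L * R)] (α : Fin 3 → ℕ) (p q : ℕ) (hp : 0 < p) (hpL : p ∣ L)
    (hq : 0 < q) (hqL : q ∣ L) (hL : 0 < L) (hR : 0 < R) (hα : ∀ k, α k + w ≤ R) :
    ∑ t : Fin 3 → ZMod (L * R), A L R w α p t * A L R w α q t ≤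
      ((L : ℝ) * w * ((w : ℝ) / R + 1 / (bb p q : ℝ))) ^ 3 := by
  have h1 : ∀ t : Fin 3 → ZMod (L * R), A L R w α p t * A L R w α q t
      = ∏ k, (F (L * R) L (α k) w ((p : ZMod (L * R)) * t k) *
        F (L * R) L (α k) w ((q : ZMod (L * R)) * t k)) := by
    intro t
    unfold A
    rw [prod_mul_distrib]
  rw [sum_congr rfl (fun t _ => h1 t)]
  rw [sum_prod3 (L * R) (fun k x => F (L * R) L (α k) w ((p : ZMod (L * R)) * x) *
        F (L * R) L (α k) w ((q : ZMod (L * R)) * x))]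
  have hg : 0 < Nat.gcd p q := Nat.gcd_pos_of_pos_left _ hp
  have hbound : ∀ k, ∑ x : ZMod (L * R), F (L * R) L (α k) w ((p : ZMod (L * R)) * x) *
        F (L * R) L (α k) w ((q : ZMod (L * R)) * x) ≤
        (L : ℝ) * w * ((w : ℝ) / R + 1 / (bb p q : ℝ)) := by
    intro k
    have hcop : Nat.Coprime (p / Nat.gcd p q) (q / Nat.gcd p q) := Nat.coprime_div_gcd_div_gcd hg
    have e1 : Nat.gcd p q * (p / Nat.gcd p q) = p := Nat.mul_div_cancel' (Nat.gcd_dvd_left p q)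
    have e2 : Nat.gcd p q * (q / Nat.gcd p q) = q := Nat.mul_div_cancel' (Nat.gcd_dvd_right p q)
    rcases le_total p q with h | h
    · have hbb : bb p q = q / Nat.gcd p q := by unfold bb; rw [max_eq_right h]
      have hb0 : 0 < q / Nat.gcd p q := Nat.div_pos (Nat.gcd_le_right _ hq) hg
      have := pair_F L R (Nat.gcd p q) (p / Nat.gcd p q) (q / Nat.gcd p q) (α k) w hL hR hg hb0
        hcop (by rw [e2]; exact hqL) (hα k)
      rw [e1, e2, ← hbb] at this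
      exact this
    · have hbb : bb p q = p / Nat.gcd p q := by unfold bb; rw [max_eq_left h]
      have hb0 : 0 < p / Nat.gcd p q := Nat.div_pos (Nat.gcd_le_left _ hp) hg
      have := pair_F L R (Nat.gcd p q) (q / Nat.gcd p q) (p / Nat.gcd p q) (α k) w hL hR hg hb0
        hcop.symm (by rw [e1]; exact hpL) (hα k)
      rw [e1, e2, ← hbb] at this
      refine le_trans (le_of_eq ?_) this
      apply sum_congr rfl
      intro x _
      ring
  have h2 : ∏ k : Fin 3, ∑ x : ZMod (L * R), F (L * R) L (α k) w ((p : ZMod (L * R)) * x) *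
        F (L * R) L (α k) w ((q : ZMod (L * R)) * x)
      ≤ ∏ _k : Fin 3, ((L : ℝ) * w * ((w : ℝ) / R + 1 / (bb p q : ℝ))) := by
    apply prod_le_prod
    · intro k _
      apply sum_nonneg
      intro x _
      exact mul_nonneg (F_nonneg _ _ _ _ _) (F_nonneg _ _ _ _ _)
    · intro k _
      exact hbound k
  refine h2.trans (le_of_eq ?_)
  simp

lemma A_sq (L R w : ℕ) (α : Fin 3 → ℕ) (p : ℕ) (t : Fin 3 → ZMod (L * R)) :
    A L R w α p t * A L R w α p t = A L R w α p t := by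
  unfold A
  rw [← prod_mul_distrib]
  exact prod_congr rfl fun k _ => F_sq _ _ _ _ _

lemma sum_X (L R w : ℕ) [NeZero (L * R)] (α : Fin 3 → ℕ) (P : Finset ℕ) (hpos : ∀ p ∈ P, 0 < p)
    (hdvd : ∀ p ∈ P, p ∣ L) (hL : 0 < L) (hα : ∀ k, α k + w ≤ R) :
    ∑ t : Fin 3 → ZMod (L * R), X L R w α P t = #P * ((L : ℝ) * w) ^ 3 := by
  unfold X
  rw [sum_comm, sum_congr rfl (fun p hp => sum_A L R w α p (hpos p hp) (hdvd p hp) hL hα),
    sum_const, nsmul_eq_mul]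

lemma sum_XX (L R w : ℕ) [NeZero (L * R)] (α : Fin 3 → ℕ) (P : Finset ℕ) (hpos : ∀ p ∈ P, 0 < p)
    (hdvd : ∀ p ∈ P, p ∣ L) (hL : 0 < L) (hR : 0 < R) (hα : ∀ k, α k + w ≤ R) (h : ℕ) (hh : 0 < h)
    (hh2 : h * h ≤ #P) :
    ∑ t : Fin 3 → ZMod (L * R), X L R w α P t ^ 2 ≤ ((L : ℝ) * R) ^ 3 *
      (#P * (#P * ((w : ℝ) / R) ^ 6 + 27 / 2 * (#P * ((w : ℝ) / R) ^ 5 / h) + 6 * ((w : ℝ) / R) ^ 3)) := by
  classical
  set ω : ℝ := (w : ℝ) / R with hω
  have hRR : (R : ℝ) ≠ 0 := by exact_mod_cast hR.ne'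
  have hω0 : 0 ≤ ω := by positivity
  have hLw : (L : ℝ) * w = (L : ℝ) * R * ω := by rw [hω]; field_simp
  have h1 : ∑ t : Fin 3 → ZMod (L * R), X L R w α P t ^ 2
      = ∑ p ∈ P, ∑ q ∈ P, ∑ t : Fin 3 → ZMod (L * R), A L R w α p t * A L R w α q t := by
    have : ∀ t, X L R w α P t ^ 2 = ∑ p ∈ P, ∑ q ∈ P, A L R w α p t * A L R w α q t := by
      intro t
      unfold X
      rw [sq, sum_mul_sum]
    rw [sum_congr rfl (fun t _ => this t), sum_comm]
    apply sum_congr rfl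
    intro p _
    rw [sum_comm]
  rw [h1]
  have h2 : ∀ p ∈ P, ∑ q ∈ P, ∑ t : Fin 3 → ZMod (L * R), A L R w α p t * A L R w α q t ≤
      ((L : ℝ) * R) ^ 3 * (#P * ω ^ 6 + 27 / 2 * (#P * ω ^ 5 / h) + 6 * ω ^ 3) := by
    intro p hp
    rw [← sum_erase_add _ _ hp]
    have e1 : ∑ t : Fin 3 → ZMod (L * R), A L R w α p t * A L R w α p t
        = ((L : ℝ) * R) ^ 3 * ω ^ 3 := by
      rw [sum_congr rfl (fun t _ => A_sq L R w α p t),
        sum_A L R w α p (hpos p hp) (hdvd p hp) hL hα, hLw]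
      ring
    have e2 : ∑ q ∈ P.erase p, ∑ t : Fin 3 → ZMod (L * R), A L R w α p t * A L R w α q t
        ≤ ∑ q ∈ P.erase p, ((L : ℝ) * R) ^ 3 * (ω * (ω + 1 / (bb p q : ℝ))) ^ 3 := by
      apply sum_le_sum
      intro q hq
      have hq' := (mem_erase.1 hq).2
      refine (sum_AA L R w α p q (hpos p hp) (hdvd p hp) (hpos q hq') (hdvd q hq') hL hR hα).trans
        (le_of_eq ?_)
      rw [hLw, ← hω]
      ring
    rw [← mul_sum] at e2
    have e3 := gcd_sum P hpos p hp ω hω0 h hh hh2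
    have e4 := mul_le_mul_of_nonneg_left e3 (show (0 : ℝ) ≤ ((L : ℝ) * R) ^ 3 by positivity)
    rw [e1]
    calc _ ≤ ((L : ℝ) * R) ^ 3 * (#P * ω ^ 6 + 27 / 2 * (#P * ω ^ 5 / h) + 5 * ω ^ 3)
          + ((L : ℝ) * R) ^ 3 * ω ^ 3 := by linarith
      _ = _ := by ring
  refine (sum_le_sum h2).trans (le_of_eq ?_)
  rw [sum_const, nsmul_eq_mul]
  ring

/-- the normalised variance -/
lemma var_bound (L R w : ℕ) [NeZero (L * R)] (α : Fin 3 → ℕ) (P : Finset ℕ)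
    (hpos : ∀ p ∈ P, 0 < p)
    (hdvd : ∀ p ∈ P, p ∣ L) (hL : 0 < L) (hR : 0 < R) (hw : 0 < w) (hα : ∀ k, α k + w ≤ R)
    (h : ℕ) (hh : 0 < h)
    (hh2 : h * h ≤ #P) :
    ∑ t : Fin 3 → ZMod (L * R), (X L R w α P t / (#P * ((w : ℝ) / R) ^ 3) - 1) ^ 2 ≤
      ((L : ℝ) * R) ^ 3 *
      (6 / (#P * ((w : ℝ) / R) ^ 3) + 27 / 2 / (h * ((w : ℝ) / R))) := by
  classical
  set ω : ℝ := (w : ℝ) / R with hω
  have hRR : (0 : ℝ) < R := by exact_mod_cast hR
  have hwR : (0 : ℝ) < w := by exact_mod_cast hw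
  have hω0 : 0 < ω := by positivity
  have hn : 0 < #P := by
    have := Nat.mul_pos hh hh
    omega
  have hnR : (0 : ℝ) < #P := by exact_mod_cast hn
  have hhR : (0 : ℝ) < h := by exact_mod_cast hh
  have hLw : (L : ℝ) * w = (L : ℝ) * R * ω := by rw [hω]; field_simp
  set μ : ℝ := #P * ω ^ 3 with hμ
  have hμ0 : 0 < μ := by positivity
  have hX := sum_X L R w α P hpos hdvd hL hα
  have hXX := sum_XX L R w α P hpos hdvd hL hR hα h hh hh2
  rw [← hω] at hXX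
  have hcard : ((Fintype.card (Fin 3 → ZMod (L * R)) : ℕ) : ℝ) = ((L : ℝ) * R) ^ 3 := by
    rw [Fintype.card_fun, Fintype.card_fin, ZMod.card]
    push_cast
    ring
  have h1 : ∑ t : Fin 3 → ZMod (L * R), (X L R w α P t / μ - 1) ^ 2
      = (∑ t : Fin 3 → ZMod (L * R), X L R w α P t ^ 2) / μ ^ 2
        - 2 * (∑ t : Fin 3 → ZMod (L * R), X L R w α P t) / μ + ((L : ℝ) * R) ^ 3 := by
    rw [← hcard, ← card_univ, ← nsmul_one, ← sum_const, sum_div, mul_sum, sum_div, ← sum_sub_distrib,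
      ← sum_add_distrib]
    apply sum_congr rfl
    intro t _
    field_simp
    ring
  rw [h1, hX, hLw]
  have h2 : (∑ t : Fin 3 → ZMod (L * R), X L R w α P t ^ 2) / μ ^ 2
      ≤ (((L : ℝ) * R) ^ 3 *
      (#P * (#P * ω ^ 6 + 27 / 2 * (#P * ω ^ 5 / h) + 6 * ω ^ 3))) / μ ^ 2 :=
    div_le_div_of_nonneg_right hXX (by positivity)
  have h3 : (((L : ℝ) * R) ^ 3 *
      (#P * (#P * ω ^ 6 + 27 / 2 * (#P * ω ^ 5 / h) + 6 * ω ^ 3))) / μ ^ 2
      = ((L : ℝ) * R) ^ 3 * (1 + 27 / 2 / (h * ω) + 6 / μ) := by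
    rw [hμ]
    field_simp
  have h4 : 2 * ((#P : ℝ) * ((L : ℝ) * R * ω) ^ 3) / μ = 2 * ((L : ℝ) * R) ^ 3 := by
    rw [hμ]
    field_simp
  rw [h4]
  rw [h3] at h2
  nlinarith [h2]

/-- if the variance is small the window is not empty -/
lemma window_hit (L R w : ℕ) (α : Fin 3 → ℕ) (P : Finset ℕ) (μ : ℝ)
    (t : Fin 3 → ZMod (L * R)) (hlt : (X L R w α P t / μ - 1) ^ 2 < 1) :
    ∃ p ∈ P, ∀ k, L * α k ≤ ((p : ZMod (L * R)) * t k).val ∧
      ((p : ZMod (L * R)) * t k).val < L * (α k + w) := by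
  have hne : X L R w α P t ≠ 0 := by
    intro h0
    rw [h0] at hlt
    norm_num at hlt
  unfold X at hne
  obtain ⟨p, hp, hpne⟩ := exists_ne_zero_of_sum_ne_zero hne
  refine ⟨p, hp, fun k => ?_⟩
  unfold A at hpne
  have := prod_ne_zero_iff.1 hpne k (mem_univ k)
  unfold F at this
  by_contra hcon
  rw [if_neg hcon] at this
  exact this rfl

end H346R3.E963
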