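import Mathlib
import Pool.Agent.Helper25.E963Real
import Pool.Agent.H346R3.E963.Moment
import Pool.Agent.H346R3.E963.Cert

set_option autoImplicit false

/-!
The main counting lemma: `2 ^ (3 J + 16)` positive integers contain a dissociated set of size
`3 J`, for `J ≥ 10`; hence every finite set `A` of reals contains a dissociated set of size at
least `⌊log₂ |A|⌋ - 19`.
-/

namespace H346R3.E963

open Finset

/-- widths of the windows -/
def W (J j : ℕ) : ℕ := 3 ^ j * 2 ^ (J - j)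

/-- lengths swept out by the lower levels -/
def T (J : ℕ) : ℕ → ℕ
  | 0 => 0
  | (j + 1) => 2 * T J j + 6 * W J j

lemma W_pos (J j : ℕ) : 0 < W J j := by unfold W; positivity

lemma W_succ (J j : ℕ) (h : j + 1 ≤ J) : W J (j + 1) * 2 = W J j * 3 := by
  unfold W
  have : J - j = (J - (j + 1)) + 1 := by omega
  rw [this, pow_succ, pow_succ]
  ring

lemma T_add (J : ℕ) : ∀ j, j ≤ J → T J j + 12 * W J j = 12 * 2 ^ J * 2 ^ j := by
  intro j
  induction j with
  | zero => intro _; simp [T, W]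
  | succ j ih =>
    intro hj
    have h1 := ih (by omega)
    have h2 := W_succ J j hj
    have h3 : T J (j + 1) = 2 * T J j + 6 * W J j := rfl
    rw [h3, pow_succ]
    have h4 : 12 * 2 ^ J * (2 ^ j * 2) = 2 * (12 * 2 ^ J * 2 ^ j) := by ring
    rw [h4, ← h1]
    omega

lemma T_lt (J : ℕ) : T J J < 12 * 4 ^ J := by
  have h1 := T_add J J le_rfl
  have h2 := W_pos J J
  have h3 : 12 * 2 ^ J * 2 ^ J = 12 * 4 ^ J := by
    rw [mul_assoc, ← mul_pow]; norm_num
  omega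

lemma fits (J j : ℕ) (hj : j < J) : T J j + 3 * W J j + W J j ≤ 12 * 4 ^ J := by
  have h1 := T_add J (j + 1) hj
  have h3 : T J (j + 1) = 2 * T J j + 6 * W J j := rfl
  have h4 : 12 * 2 ^ J * 2 ^ (j + 1) ≤ 12 * 4 ^ J := by
    have : 12 * 4 ^ J = 12 * 2 ^ J * 2 ^ J := by rw [mul_assoc, ← mul_pow]; norm_num
    rw [this]
    exact Nat.mul_le_mul_left _ (Nat.pow_le_pow_right (by norm_num) hj)
  omega

/-- starting points of the windows -/
def al (J j : ℕ) (i k : Fin 3) : ℕ := if k = i then T J j + 3 * W J j else 0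

lemma al_fits (J j : ℕ) (hj : j < J) (i k : Fin 3) : al J j i k + W J j ≤ 12 * 4 ^ J := by
  have := fits J j hj
  unfold al
  split_ifs <;> omega

lemma omega_eq (J j : ℕ) (hj : j ≤ J) :
    ((W J j : ℕ) : ℝ) / ((12 * 4 ^ J : ℕ) : ℝ) = (3 / 2) ^ j / (12 * 2 ^ J) := by
  unfold W
  obtain ⟨d, rfl⟩ : ∃ d, J = j + d := ⟨J - j, by omega⟩
  rw [Nat.add_sub_cancel_left]
  push_cast
  have h4 : (4 : ℝ) ^ (j + d) = 2 ^ (j + d) * 2 ^ (j + d) := by rw [← mul_pow]; norm_num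
  rw [h4, div_pow, pow_add]
  field_simp

lemma geom1 (J : ℕ) : ∑ j ∈ range J, ((2 : ℝ) / 3) ^ j ≤ 3 := by
  rw [geom_sum_eq (by norm_num)]
  have : (0 : ℝ) ≤ (2 / 3) ^ J := by positivity
  rw [div_le_iff_of_neg (by norm_num)]
  linarith

lemma geom2 (J : ℕ) : ∑ j ∈ range J, ((8 : ℝ) / 27) ^ j ≤ 27 / 19 := by
  rw [geom_sum_eq (by norm_num)]
  have : (0 : ℝ) ≤ (8 / 27) ^ J := by positivity
  rw [div_le_iff_of_neg (by norm_num)]
  linarith

lemma term_bound (J j n : ℕ) (hj : j ≤ J) (hn : 2 ^ (3 * J + 16) ≤ n) :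
    6 / ((n : ℝ) * (((W J j : ℕ) : ℝ) / ((12 * 4 ^ J : ℕ) : ℝ)) ^ 3)
      + 27 / 2 / (((2 ^ (J + 13) : ℕ) : ℝ) * (((W J j : ℕ) : ℝ) / ((12 * 4 ^ J : ℕ) : ℝ)))
      ≤ 10368 / 65536 * (8 / 27) ^ j + 162 / 8192 * (2 / 3) ^ j := by
  rw [omega_eq J j hj]
  have hn' : (2 : ℝ) ^ (3 * J + 16) ≤ n := by exact_mod_cast hn
  have e1 : 6 / ((n : ℝ) * ((3 / 2) ^ j / (12 * 2 ^ J)) ^ 3) ≤
      6 / ((2 : ℝ) ^ (3 * J + 16) * ((3 / 2) ^ j / (12 * 2 ^ J)) ^ 3) := by
    apply div_le_div_of_nonneg_left (by norm_num) (by positivity)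
    exact mul_le_mul_of_nonneg_right hn' (by positivity)
  have e2 : 6 / ((2 : ℝ) ^ (3 * J + 16) * ((3 / 2) ^ j / (12 * 2 ^ J)) ^ 3)
      = 10368 / 65536 * (8 / 27) ^ j := by
    have h1 : (2 : ℝ) ^ (3 * J + 16) = (2 ^ J) ^ 3 * 65536 := by
      rw [pow_add, mul_comm 3 J, pow_mul]; norm_num
    have h2 : ((3 : ℝ) / 2) ^ j ≠ 0 := by positivity
    have h3 : ((8 : ℝ) / 27) ^ j = (((3 : ℝ) / 2) ^ j)⁻¹ ^ 3 := by
      rw [← inv_pow, ← pow_mul, mul_comm j 3, pow_mul]; norm_num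
    rw [h1, h3]
    have h4 : ((2 : ℝ) ^ J) ≠ 0 := by positivity
    field_simp
    norm_num
  have e3 : 27 / 2 / (((2 ^ (J + 13) : ℕ) : ℝ) * ((3 / 2) ^ j / (12 * 2 ^ J)))
      = 162 / 8192 * (2 / 3) ^ j := by
    have h1 : ((2 ^ (J + 13) : ℕ) : ℝ) = 2 ^ J * 8192 := by
      push_cast
      rw [pow_add]; norm_num
    have h3 : ((2 : ℝ) / 3) ^ j = (((3 : ℝ) / 2) ^ j)⁻¹ := by
      rw [← inv_pow]; norm_num
    have h2 : ((3 : ℝ) / 2) ^ j ≠ 0 := by positivity
    rw [h1, h3]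
    have h4 : ((2 : ℝ) ^ J) ≠ 0 := by positivity
    field_simp
    norm_num
  linarith

open H25.E963 in
/-- the main counting lemma -/
lemma main_count (J : ℕ) (hJ : 10 ≤ J) (P : Finset ℕ) (hpos : ∀ p ∈ P, 0 < p)
    (hn : 2 ^ (3 * J + 16) ≤ #P) : ∃ B ⊆ P, #B = 3 * J ∧ RFn B := by
  classical
  set L := ∏ p ∈ P, p with hLdef
  have hL : 0 < L := prod_pos hpos
  have hdvd : ∀ p ∈ P, p ∣ L := fun p hp => dvd_prod_of_mem (fun p => p) hp
  set R := 12 * 4 ^ J with hRdef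
  have hR : 0 < R := by positivity
  have : NeZero (L * R) := ⟨(Nat.mul_pos hL hR).ne'⟩
  set h := 2 ^ (J + 13) with hhdef
  have hh : 0 < h := by positivity
  have hh2 : h * h ≤ #P := by
    refine le_trans ?_ hn
    rw [hhdef, ← pow_add]
    exact Nat.pow_le_pow_right (by norm_num) (by omega)
  set D : ℕ → Fin 3 → (Fin 3 → ZMod (L * R)) → ℝ := fun j i t =>
    (X L R (W J j) (al J j i) P t / (#P * (((W J j : ℕ) : ℝ) / ((R : ℕ) : ℝ)) ^ 3) - 1) ^ 2 with hD
  have hLR : (0 : ℝ) < ((L : ℝ) * R) ^ 3 := by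
    have h1 : (0 : ℝ) < L := by exact_mod_cast hL
    have h2 : (0 : ℝ) < R := by exact_mod_cast hR
    positivity
  have hcard : ((Fintype.card (Fin 3 → ZMod (L * R)) : ℕ) : ℝ) = ((L : ℝ) * R) ^ 3 := by
    rw [Fintype.card_fun, Fintype.card_fin, ZMod.card]
    push_cast
    ring
  have hsum : ∑ t : Fin 3 → ZMod (L * R), ∑ j ∈ range J, ∑ i : Fin 3, D j i t
      < ∑ _t : Fin 3 → ZMod (L * R), (1 : ℝ) := by
    have h1 : ∑ _t : Fin 3 → ZMod (L * R), (1 : ℝ) = ((L : ℝ) * R) ^ 3 := by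
      rw [sum_const, card_univ, nsmul_eq_mul, mul_one, hcard]
    rw [h1, sum_comm]
    have h2 : ∀ j ∈ range J, ∑ t : Fin 3 → ZMod (L * R), ∑ i : Fin 3, D j i t
        ≤ ((L : ℝ) * R) ^ 3 * (3 * (10368 / 65536 * (8 / 27) ^ j + 162 / 8192 * (2 / 3) ^ j)) := by
      intro j hj
      rw [mem_range] at hj
      rw [sum_comm]
      have h3 : ∀ i ∈ (univ : Finset (Fin 3)), ∑ t : Fin 3 → ZMod (L * R), D j i t
          ≤ ((L : ℝ) * R) ^ 3 * (10368 / 65536 * (8 / 27) ^ j + 162 / 8192 * (2 / 3) ^ j) := by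
        intro i _
        refine (var_bound L R (W J j) (al J j i) P hpos hdvd hL hR (W_pos J j)
          (al_fits J j hj i) h hh hh2).trans ?_
        exact mul_le_mul_of_nonneg_left (term_bound J j (#P) hj.le hn) hLR.le
      refine (sum_le_sum h3).trans (le_of_eq ?_)
      rw [sum_const, card_univ, Fintype.card_fin, nsmul_eq_mul]
      push_cast
      ring
    refine lt_of_le_of_lt (sum_le_sum h2) ?_
    rw [← mul_sum, ← mul_sum, sum_add_distrib, ← mul_sum, ← mul_sum]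
    have g1 := geom1 J
    have g2 := geom2 J
    have h5 : 3 * (10368 / 65536 * ∑ j ∈ range J, ((8 : ℝ) / 27) ^ j
        + 162 / 8192 * ∑ j ∈ range J, ((2 : ℝ) / 3) ^ j) < 1 := by
      have : (3 : ℝ) * (10368 / 65536 * (27 / 19) + 162 / 8192 * 3) < 1 := by norm_num
      linarith
    calc _ < ((L : ℝ) * R) ^ 3 * 1 := mul_lt_mul_of_pos_left h5 hLR
      _ = _ := mul_one _
  obtain ⟨t, -, ht⟩ := exists_lt_of_sum_lt hsum
  have hDnn : ∀ j i, 0 ≤ D j i t := fun j i => sq_nonneg _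
  have hDlt : ∀ j < J, ∀ i, D j i t < 1 := by
    intro j hj i
    refine lt_of_le_of_lt ?_ ht
    refine le_trans ?_ (single_le_sum (f := fun j => ∑ i : Fin 3, D j i t)
      (fun j _ => sum_nonneg fun i _ => hDnn j i) (mem_range.2 hj))
    exact single_le_sum (f := fun i => D j i t) (fun i _ => hDnn j i) (mem_univ i)
  have hex : ∀ j i, ∃ p, j < J → (p ∈ P ∧ ∀ k, L * al J j i k ≤ ((p : ZMod (L * R)) * t k).val ∧
      ((p : ZMod (L * R)) * t k).val < L * (al J j i k + W J j)) := by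
    intro j i
    by_cases hj : j < J
    · obtain ⟨p, hp, hp2⟩ := window_hit L R (W J j) (al J j i) P _ t (hDlt j hj i)
      exact ⟨p, fun _ => ⟨hp, hp2⟩⟩
    · exact ⟨0, fun h => absurd h hj⟩
  choose c hc using hex
  have hgood : Good L J (W J) (T J) (fun j i i' => ((c j i : ZMod (L * R)) * t i').val) := by
    refine ⟨rfl, fun j => rfl, ?_, ?_, ?_⟩
    · intro j hj i
      have := ((hc j i hj).2 i).1
      simpa [al] using this
    · intro j hj i
      have := ((hc j i hj).2 i).2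
      simpa [al] using this
    · intro j hj i i' hne
      have := ((hc j i hj).2 i').2
      have hal : al J j i i' = 0 := by unfold al; rw [if_neg (Ne.symm hne)]
      rw [hal, zero_add] at this
      exact this
  obtain ⟨h1, h2⟩ := family_set (T_lt J) hL c t hgood
  refine ⟨_, ?_, h1, h2⟩
  intro x hx
  obtain ⟨y, hy, rfl⟩ := mem_image.1 hx
  exact (hc y.1 y.2 (mem_range.1 (mem_product.1 hy).1)).1

open H25.E963 in
/-- loss at most `19` -/
theorem const_loss (A : Finset ℝ) :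
    ∃ B ⊆ A, Nat.log 2 #A ≤ #B + 19 ∧ AddDissociated (B : Set ℝ) := by
  classical
  set K := Nat.log 2 #A with hK
  rcases Nat.lt_or_ge K 47 with hlt | hge
  · obtain ⟨B, hB, h1, h2⟩ := lower_param 4 A (by rw [← hK]; norm_num; omega)
    exact ⟨B, hB, by omega, h2⟩
  · obtain ⟨J, hJ1, hJ2⟩ : ∃ J, 3 * J + 16 ≤ K - 1 ∧ K ≤ 3 * J + 19 := ⟨(K - 17) / 3, by omega, by omega⟩
    have hAne : #A ≠ 0 := by
      intro h0
      rw [h0] at hK
      simp at hK
      omega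
    have h2K : 2 ^ K ≤ #A := Nat.pow_log_le_self 2 hAne
    obtain ⟨n, hninj, hn⟩ := exists_int_model A
    set P := (A.image (fun a => (n a).natAbs)).erase 0 with hP
    have hcard := card_natAbs A n hninj
    rw [← hP] at hcard
    have hPc : 2 ^ (K - 1) ≤ #P := by
      have : K = (K - 1) + 1 := by omega
      rw [this, pow_succ] at h2K
      omega
    obtain ⟨B, hBP, hBc, hBR⟩ := main_count J (by omega) P
      (fun x hx => Nat.pos_of_ne_zero (mem_erase.1 hx).1)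
      ((Nat.pow_le_pow_right (by norm_num) hJ1).trans hPc)
    obtain ⟨B', hB'A, hB'c, hB'd⟩ := pull_back A n hn B (hBP.trans (erase_subset _ _)) hBR
    exact ⟨B', hB'A, by rw [hB'c, hBc]; omega, hB'd⟩

end H346R3.E963
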